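import Pool.Agent.MP_75ef89_co.Ex.Main2
import Pool.Agent.MP_75ef89_co.Ex.Asm
import Pool.Agent.MP_75ef89_co.Ex.C.All

/-! Maximal transitive subtournaments: the exact value of `f n` for every `n ≥ 1`. -/

namespace Pool.Agent.Results.MP_75ef89_co.Exact

/-- `T` has no loops and exactly one arc between any two distinct vertices. -/
def IsTournament {n : ℕ} (T : Fin n → Fin n → Prop) : Prop :=
  (∀ u, ¬ T u u) ∧ ∀ u v, u ≠ v → (T u v ∧ ¬ T v u) ∨ (T v u ∧ ¬ T u v)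

/-- The subtournament induced on `W` is transitive. -/
def IsTransitiveOn {n : ℕ} (T : Fin n → Fin n → Prop) (W : Finset (Fin n)) : Prop :=
  ∀ a ∈ W, ∀ b ∈ W, ∀ c ∈ W, T a b → T b c → T a c

/-- The number of vertex sets of maximal transitive subtournaments of `T`. -/
noncomputable def m {n : ℕ} (T : Fin n → Fin n → Prop) : ℕ :=
  Set.ncard {W : Finset (Fin n) | IsTransitiveOn T W ∧ ∀ W', W ⊂ W' → ¬ IsTransitiveOn T W'}

/-- The largest value of `m` over the tournaments on `n` vertices. -/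
noncomputable def f (n : ℕ) : ℕ :=
  sSup {k | ∃ T : Fin n → Fin n → Prop, IsTournament T ∧ m T = k}

open Pool.Agent.MP_75ef89_co.Ex

theorem f_eq (n : ℕ) : f n = F n := Asm.result_of (mainStmt allTrees) n

theorem F_small {n : ℕ} (h : n ≤ 18) : F n =
    [1, 1, 1, 3, 3, 7, 12, 21, 25, 43, 63, 87, 147, 252, 441, 525, 903, 1366, 1849].getD n 0 := by
  rw [F, dif_pos h]

theorem F_step {n : ℕ} (h : 12 ≤ n ∨ (5 ≤ n ∧ n ≤ 9)) : F (n + 7) = 21 * F n := by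
  rcases h with h | ⟨h1, h2⟩
  · rw [F, dif_neg (by omega), Nat.add_sub_cancel]
  · rw [F_small (by omega), F_small (by omega)]
    interval_cases n <;> rfl

theorem F_pow {a : ℕ} (h : 12 ≤ a ∨ (5 ≤ a ∧ a ≤ 9)) (k : ℕ) : F (7 * k + a) = F a * 21 ^ k := by
  induction k with
  | zero => simp
  | succ k ih =>
    rw [show 7 * (k + 1) + a = 7 * k + a + 7 by ring, F_step (by omega), ih, pow_succ]
    ring

theorem result :
    (f 1 = 1 ∧ f 2 = 1 ∧ f 3 = 3 ∧ f 4 = 3 ∧ f 10 = 63 ∧ f 11 = 87) ∧ ∀ k : ℕ,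
      f (7 * k + 5) = 7 * 21 ^ k ∧ f (7 * k + 6) = 12 * 21 ^ k ∧ f (7 * k + 7) = 21 * 21 ^ k ∧
      f (7 * k + 8) = 25 * 21 ^ k ∧ f (7 * k + 9) = 43 * 21 ^ k ∧
      f (7 * k + 17) = 1366 * 21 ^ k ∧ f (7 * k + 18) = 1849 * 21 ^ k := by
  simp only [f_eq]
  refine ⟨⟨?_, ?_, ?_, ?_, ?_, ?_⟩, fun k => ⟨?_, ?_, ?_, ?_, ?_, ?_, ?_⟩⟩
  iterate 6 exact F_small (by norm_num)
  all_goals
    rw [F_pow (by norm_num), F_small (by norm_num)]
    rfl

end Pool.Agent.Results.MP_75ef89_co.Exact
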